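import Pool.Agent.N352.PJ.Loc

/-!
# The primes over `Q` (project PJ of helper352)

By helper765.  `O` is a quotient of `k[X][X]`; the primes over `Q` are the kernels of the maps to
`AdjoinRoot m`, `m` an irreducible factor of `f` modulo `Q`.
-/

set_option autoImplicit false
set_option linter.all false

open Polynomial IsDedekindDomain WithZero
open scoped Classical

namespace Pool.Agent.N765.PJ

open Pool.Agent.N352.PJ
open Pool.Agent.N874.PP (Ov Ev Sq1 U0)

/-- reduction modulo `Q` -/
noncomputable abbrev rd {k : Type} [Field k] (Q : k[X]) : k[X] →+* k[X] ⧸ Ideal.span {Q} :=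
  Ideal.Quotient.mk (Ideal.span {Q})

/-- evaluation at `t` -/
noncomputable def ev {k O : Type} [Field k] [CommRing O] [Algebra k[X] O] (t : O) :
    k[X][X] →+* O := eval₂RingHom (algebraMap k[X] O) t

section poly

variable {k : Type} [Field k]

theorem map_eq_of_cg {Q : k[X]} {f f' : k[X][X]} (h : Cg Q f f') : f.map (rd Q) = f'.map (rd Q) := by
  ext j
  rw [coeff_map, coeff_map]
  exact Ideal.Quotient.eq.2 (Ideal.mem_span_singleton.2 (h j))

theorem map_rd_eq_zero {Q : k[X]} {p : k[X][X]} (h : p.map (rd Q) = 0) :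
    ∃ p' : k[X][X], p = C Q * p' := by
  have : C Q ∣ p := by
    rw [C_dvd_iff_dvd_coeff]
    intro i
    have h1 := congrArg (fun p => coeff p i) h
    simp only [coeff_map, coeff_zero] at h1
    exact Ideal.mem_span_singleton.1 (Ideal.Quotient.eq_zero_iff_mem.1 h1)
  exact this

theorem coeff_rd {Q : k[X]} {p : k[X][X]} (h : p.map (rd Q) = 0) (i : ℕ) : Q ∣ p.coeff i := by
  obtain ⟨p', rfl⟩ := map_rd_eq_zero h
  rw [coeff_C_mul]
  exact dvd_mul_right _ _

theorem rd_surj (Q : k[X]) : Function.Surjective (Polynomial.map (rd Q)) :=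
  Polynomial.map_surjective _ Ideal.Quotient.mk_surjective

end poly

section main

variable {k K L O : Type} [Field k] [Field K] [Algebra k[X] K] [IsFractionRing k[X] K]
  [Field L] [Algebra K L] [Algebra k[X] L] [IsScalarTower k[X] K L] [CommRing O]
  [IsDedekindDomain O] [Algebra O L] [IsFractionRing O L] [Algebra k[X] O]
  [IsScalarTower k[X] O L] {g : ℕ} {f : k[X][X]} {θ : L}

theorem inj_L (K : Type) [Field K] [Algebra k[X] K] [IsFractionRing k[X] K] [Algebra K L]
    [IsScalarTower k[X] K L] : Function.Injective (algebraMap k[X] L) := by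
  rw [IsScalarTower.algebraMap_eq k[X] K L]
  exact (algebraMap K L).injective.comp (IsFractionRing.injective k[X] K)

theorem mapO (p : k[X]) : algebraMap O L (algebraMap k[X] O p) = algebraMap k[X] L p :=
  (IsScalarTower.algebraMap_apply k[X] O L p).symm

theorem injO (K L O : Type) [Field K] [Algebra k[X] K] [IsFractionRing k[X] K]
    [Field L] [Algebra K L] [Algebra k[X] L] [IsScalarTower k[X] K L] [CommRing O] [Algebra O L]
    [Algebra k[X] O] [IsScalarTower k[X] O L] : Function.Injective (algebraMap k[X] O) := by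
  intro p q hpq
  apply inj_L (L := L) K
  rw [IsScalarTower.algebraMap_apply k[X] O L, hpq, ← IsScalarTower.algebraMap_apply k[X] O L]

theorem ev_L {t : O} (ht : algebraMap O L t = θ) (p : k[X][X]) :
    algebraMap O L (ev t p) = eval₂ (algebraMap k[X] L) θ p := by
  unfold ev
  rw [coe_eval₂RingHom, hom_eval₂, ht]
  congr 1
  exact (IsScalarTower.algebraMap_eq k[X] O L).symm

theorem ev_f (h : IsGen g K f θ) {t : O} (ht : algebraMap O L t = θ) : ev t f = 0 := by
  apply IsFractionRing.injective O L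
  rw [ev_L ht, h.root, map_zero]

/-- a polynomial of small degree with value zero -/
theorem small_zero (h : IsGen g K f θ) {r : k[X][X]} (hr : r.degree < ((2 * g + 1 : ℕ) : WithBot ℕ))
    (h0 : eval₂ (algebraMap k[X] L) θ r = 0) : r = 0 := by
  have hli := Fintype.linearIndependent_iff.1 h.basis.linearIndependent
  have h1 : ∑ i : Fin (2 * g + 1), (algebraMap k[X] K (r.coeff i)) • h.basis i = 0 := by
    rw [← h0, eval₂_eq_sum_range' (algebraMap k[X] L) (n := 2 * g + 1), ← Fin.sum_univ_eq_sum_range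
      (fun i => algebraMap k[X] L (r.coeff i) * θ ^ i)]
    · refine Finset.sum_congr rfl fun i _ => ?_
      rw [h.basis_apply, Algebra.smul_def, ← IsScalarTower.algebraMap_apply k[X] K L]
    · by_cases hr0 : r = 0
      · rw [hr0]; simp
      · exact (natDegree_lt_iff_degree_lt hr0).2 hr
  have h2 := hli _ h1
  ext1 i
  rw [coeff_zero]
  by_cases hi : i < 2 * g + 1
  · have h3 := h2 ⟨i, hi⟩
    exact IsFractionRing.injective k[X] K (by rw [map_zero]; exact h3)
  · exact coeff_eq_zero_of_degree_lt (hr.trans_le (by exact_mod_cast (not_lt.1 hi)))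

theorem deg_f (h : IsGen g K f θ) : f.degree = ((2 * g + 1 : ℕ) : WithBot ℕ) := by
  rw [degree_eq_natDegree h.mon.ne_zero, h.deg]

theorem ev_ker (h : IsGen g K f θ) {t : O} (ht : algebraMap O L t = θ) {p : k[X][X]}
    (hp : ev t p = 0) : f ∣ p := by
  rw [← modByMonic_eq_zero_iff_dvd h.mon]
  refine small_zero h ?_ ?_
  · rw [← deg_f h]
    exact degree_modByMonic_lt _ h.mon
  · rw [← ev_L ht]
    have h1 := modByMonic_add_div p f
    have h2 := congrArg (ev t) h1
    rw [map_add, map_mul, ev_f h ht, zero_mul, add_zero, hp] at h2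
    rw [h2, map_zero]

/-- the polynomial with given coordinates -/
theorem crd_poly {t : O} (ht : algebraMap O L t = θ) {v : Fin (2 * g + 1) → k[X]} {z : O}
    (hz : Crd g θ v (algebraMap O L z)) : ∃ p : k[X][X],
      p.degree < ((2 * g + 1 : ℕ) : WithBot ℕ) ∧ ev t p = z ∧
      ∀ i : Fin (2 * g + 1), p.coeff i = v i := by
  refine ⟨∑ i : Fin (2 * g + 1), C (v i) * X ^ (i : ℕ), degree_sum_fin_lt _, ?_, ?_⟩
  · apply IsFractionRing.injective O L
    rw [ev_L ht, hz, eval₂_finset_sum]
    refine Finset.sum_congr rfl fun i _ => ?_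
    rw [eval₂_mul, eval₂_C, eval₂_X_pow]
  · intro i
    rw [finset_sum_coeff, Finset.sum_eq_single i]
    · rw [coeff_C_mul, coeff_X_pow, if_pos rfl, mul_one]
    · intro j _ hj
      rw [coeff_C_mul, coeff_X_pow, if_neg, mul_zero]
      exact fun h => hj (Fin.ext h.symm)
    · intro hi
      exact absurd (Finset.mem_univ _) hi

theorem ov_iff {Q : k[X]} (hQ : Irreducible Q) {𝔓 : HeightOneSpectrum O} (hov : Ov Q 𝔓)
    (c : k[X]) : algebraMap k[X] O c ∈ 𝔓.asIdeal ↔ Q ∣ c := by
  constructor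
  · intro hc
    by_contra hn
    obtain ⟨u, v, huv⟩ : IsCoprime Q c := (hQ.coprime_iff_not_dvd).mpr hn
    have : algebraMap k[X] O (u * Q + v * c) ∈ 𝔓.asIdeal := by
      rw [map_add, map_mul, map_mul]
      exact Ideal.add_mem _ (Ideal.mul_mem_left _ _ hov) (Ideal.mul_mem_left _ _ hc)
    rw [huv, map_one] at this
    exact 𝔓.isPrime.ne_top ((Ideal.eq_top_iff_one _).mpr this)
  · rintro ⟨d, rfl⟩
    rw [map_mul]
    exact Ideal.mul_mem_right _ _ hov

theorem ev_CQ (t : O) (Q : k[X]) (p : k[X][X]) : ev t (C Q * p) = algebraMap k[X] O Q * ev t p := by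
  rw [map_mul]
  congr 1
  simp [ev]

/-- membership by reduction modulo `Q` -/
theorem mem_of_dvd {Q : k[X]} {t : O} {I : Ideal O} (hQI : algebraMap k[X] O Q ∈ I)
    {m p : k[X][X]} (hm : ev t m ∈ I) (hd : m.map (rd Q) ∣ p.map (rd Q)) : ev t p ∈ I := by
  obtain ⟨c, hc⟩ := hd
  obtain ⟨c, rfl⟩ := rd_surj Q c
  have h1 : (p - m * c).map (rd Q) = 0 := by
    rw [Polynomial.map_sub, Polynomial.map_mul, hc, sub_self]
  obtain ⟨d, hd⟩ := map_rd_eq_zero h1
  have h2 : p = m * c + C Q * d := by rw [← hd]; ring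
  rw [h2, map_add, map_mul, ev_CQ]
  exact I.add_mem (I.mul_mem_right _ hm) (I.mul_mem_right _ hQI)

end main

section int

variable {k K L O : Type} [Field k] [Field K] [Algebra k[X] K] [IsFractionRing k[X] K]
  [Field L] [Algebra K L] [Algebra k[X] L] [IsScalarTower k[X] K L] [CommRing O]
  [IsDedekindDomain O] [Algebra O L] [IsFractionRing O L] [Algebra k[X] O]
  [IsScalarTower k[X] O L] [IsIntegralClosure O k[X] L] {g : ℕ} {f : k[X][X]} {θ : L}

theorem int_iff (O : Type) [CommRing O] [Algebra O L] [Algebra k[X] O]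
    [IsScalarTower k[X] O L] [IsIntegralClosure O k[X] L] (x : L) :
    IsIntegral k[X] x ↔ ∃ z : O, algebraMap O L z = x :=
  IsIntegralClosure.isIntegral_iff (A := O)

theorem theta_ex (O : Type) [CommRing O] [Algebra O L] [Algebra k[X] O] [IsScalarTower k[X] O L]
    [IsIntegralClosure O k[X] L] (h : IsGen g K f θ) : ∃ t : O, algebraMap O L t = θ :=
  (int_iff (k := k) O θ).1 ⟨f, h.mon, h.root⟩

/-- integers as values of polynomials -/
theorem ex_poly (hI : S_INT) (h : IsGen g K f θ) (hsq : Squarefree (dsc g f)) {t : O}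
    (ht : algebraMap O L t = θ) (z : O) : ∃ p : k[X][X],
      p.degree < ((2 * g + 1 : ℕ) : WithBot ℕ) ∧ ev t p = z := by
  obtain ⟨v, hv⟩ := (hI g k K L f θ h hsq _).1 ((int_iff (k := k) O _).2 ⟨z, rfl⟩)
  obtain ⟨p, h1, h2, -⟩ := crd_poly ht hv
  exact ⟨p, h1, h2⟩

theorem ev_surj (hI : S_INT) (h : IsGen g K f θ) (hsq : Squarefree (dsc g f)) {t : O}
    (ht : algebraMap O L t = θ) : Function.Surjective (ev (k := k) t) := fun z => by
  obtain ⟨p, -, hp⟩ := ex_poly (K := K) hI h hsq ht z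
  exact ⟨p, hp⟩

/-- the map to `AdjoinRoot m` for a factor `m` of `f` modulo `Q` -/
theorem ex_psi (hI : S_INT) (h : IsGen g K f θ) (hsq : Squarefree (dsc g f)) {t : O}
    (ht : algebraMap O L t = θ) (Q : k[X]) (m : (k[X] ⧸ Ideal.span {Q})[X])
    (hm : m ∣ f.map (rd Q)) : ∃ ψ : O →+* AdjoinRoot m,
      ∀ p : k[X][X], ψ (ev t p) = AdjoinRoot.mk m (p.map (rd Q)) := by
  have hk : RingHom.ker (ev (k := k) t) ≤
      RingHom.ker ((AdjoinRoot.mk m).comp (mapRingHom (rd Q))) := by
    intro p hp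
    rw [RingHom.mem_ker] at hp ⊢
    obtain ⟨c, rfl⟩ := ev_ker (K := K) h ht hp
    simp only [RingHom.comp_apply, coe_mapRingHom, Polynomial.map_mul, map_mul]
    rw [AdjoinRoot.mk_eq_zero.2 hm, zero_mul]
  refine ⟨(ev (k := k) t).liftOfSurjective (ev_surj (K := K) hI h hsq ht) ⟨_, hk⟩, fun p => ?_⟩
  rw [RingHom.liftOfRightInverse_comp_apply]
  rfl

end int

end Pool.Agent.N765.PJ
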